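import Pool.Agent.H220M.Fin5

/-!
# Sign patterns after random changes of sign on an arbitrary infinite set of primes

Let `Q` be any infinite set of primes, however sparse, and `g` a completely multiplicative function
with values `±1`.  For almost every choice of signs on `Q` the modified function has all sign
patterns of all lengths, each with positive upper density.
-/

set_option autoImplicit false

namespace Pool.Agent.Results.MP_52aa73_nt.SparseRandomSigns

open Filter MeasureTheory Pool.Agent.H220M

theorem result (g : ℕ →*₀ ℤ) (hg : ∀ p : ℕ, p.Prime → g p = 1 ∨ g p = -1)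
    (Q : Set ℕ) (hQ : Q.Infinite) (hQp : ∀ q ∈ Q, q.Prime) :
    ∀ᵐ ω ∂coins, ∃! f : ℕ →*₀ ℤ, IsModif g Q ω f ∧
      ∀ (n : ℕ) (t : Fin n → ℤ), (∀ j, t j = 1 ∨ t j = -1) →
        ∃ δ : ℝ, 0 < δ ∧ ∃ᶠ x : ℕ in atTop, δ * x ≤ (cnt f t x : ℝ) :=
  finalC g hg Q hQ hQp

end Pool.Agent.Results.MP_52aa73_nt.SparseRandomSigns
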